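import Mathlib
import Pool.Agent.H2R2.Frac.Main

set_option autoImplicit false

/-!
# The fractional form of the separation (illumination) conjecture, with the equality case

For every convex body `K` in dimension `d`, at least one, and every interior point `o`, there is a
finite weighted family of hyperplanes of total weight at most `2 ^ d` such that every face of `K` is
strictly separated from `o` with total weight at least one; and `2 ^ d` is optimal for `(K, o)` if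
and only if `K` is a cross-body centred at `o`.
-/

open MeasureTheory Module
open scoped InnerProductSpace

theorem Pool.Agent.Results.MP_5e7226_co.FractionalSeparation.result
    (d : ℕ) (hd : 1 ≤ d) (K : Set (EuclideanSpace ℝ (Fin d)))
    (hKc : IsCompact K) (hK : Convex ℝ K) (o : EuclideanSpace ℝ (Fin d)) (ho : o ∈ interior K) :
    (∃ (H : Finset (EuclideanSpace ℝ (Fin d) × ℝ)) (w : EuclideanSpace ℝ (Fin d) × ℝ → ℝ),
      (∀ h ∈ H, 0 ≤ w h) ∧ ∑ h ∈ H, w h ≤ 2 ^ d ∧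
      ∀ u : EuclideanSpace ℝ (Fin d), u ≠ 0 →
        1 ≤ ∑ h ∈ H, {h : EuclideanSpace ℝ (Fin d) × ℝ | ⟪h.1, o⟫_ℝ < h.2 ∧
          ∀ x ∈ K, (∀ y ∈ K, ⟪u, y⟫_ℝ ≤ ⟪u, x⟫_ℝ) → h.2 < ⟪h.1, x⟫_ℝ}.indicator w h) ∧
    ((∀ (H : Finset (EuclideanSpace ℝ (Fin d) × ℝ)) (w : EuclideanSpace ℝ (Fin d) × ℝ → ℝ),
      (∀ h ∈ H, 0 ≤ w h) →
      (∀ u : EuclideanSpace ℝ (Fin d), u ≠ 0 →
        1 ≤ ∑ h ∈ H, {h : EuclideanSpace ℝ (Fin d) × ℝ | ⟪h.1, o⟫_ℝ < h.2 ∧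
          ∀ x ∈ K, (∀ y ∈ K, ⟪u, y⟫_ℝ ≤ ⟪u, x⟫_ℝ) → h.2 < ⟪h.1, x⟫_ℝ}.indicator w h) →
      2 ^ d ≤ ∑ h ∈ H, w h) ↔
    ∃ (v : Fin d → EuclideanSpace ℝ (Fin d)) (t : Fin d → ℝ), LinearIndependent ℝ v ∧
      (∀ i, 0 < t i) ∧
      K = convexHull ℝ (Set.range (fun i => o + v i) ∪ Set.range (fun i => o - t i • v i))) :=
  Pool.Agent.H2R2.Frac.main d hd K hKc hK o ho
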