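import Pool.Agent.H153R2.Transfer

set_option autoImplicit false

open scoped InnerProductSpace

namespace Pool.Agent.Results.MP_5e7226_co.SimplexSymmetric

open Pool.Agent.H153R2.Simplex in
/-- The assertion of the problem, in every dimension `d ≥ 3`, for every pair `(K, o)` such that `K`
is invariant under all affine symmetries of some simplex with centroid `o`. -/
theorem result :
    ∀ d : ℕ, 3 ≤ d → ∀ K : Set (EuclideanSpace ℝ (Fin d)), Convex ℝ K → IsCompact K →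
      ∀ o ∈ interior K,
        (∃ p : Fin (d + 1) → EuclideanSpace ℝ (Fin d),
          AffineIndependent ℝ p ∧ ∑ i, p i = ((d : ℝ) + 1) • o ∧
          ∀ σ : Equiv.Perm (Fin (d + 1)),
            ∃ g : EuclideanSpace ℝ (Fin d) →ᵃ[ℝ] EuclideanSpace ℝ (Fin d),
              (∀ i, g (p i) = p (σ i)) ∧ g '' K = K) →
        (∃ w : Fin (2 ^ d) → EuclideanSpace ℝ (Fin d), ∃ b : Fin (2 ^ d) → ℝ,
          ∀ u x₀ : EuclideanSpace ℝ (Fin d), u ≠ 0 → x₀ ∈ K →
            (∀ y ∈ K, ⟪u, y⟫_ℝ ≤ ⟪u, x₀⟫_ℝ) →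
              ∃ i, ⟪w i, o⟫_ℝ < b i ∧
                ∀ x ∈ K, ⟪u, x⟫_ℝ = ⟪u, x₀⟫_ℝ → b i < ⟪w i, x⟫_ℝ) ∧
        ((¬ ∃ w : Fin (2 ^ d - 1) → EuclideanSpace ℝ (Fin d), ∃ b : Fin (2 ^ d - 1) → ℝ,
          ∀ u x₀ : EuclideanSpace ℝ (Fin d), u ≠ 0 → x₀ ∈ K →
            (∀ y ∈ K, ⟪u, y⟫_ℝ ≤ ⟪u, x₀⟫_ℝ) →
              ∃ i, ⟪w i, o⟫_ℝ < b i ∧
                ∀ x ∈ K, ⟪u, x⟫_ℝ = ⟪u, x₀⟫_ℝ → b i < ⟪w i, x⟫_ℝ) →
          ∃ v : Fin d → EuclideanSpace ℝ (Fin d), ∃ t : Fin d → ℝ,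
            LinearIndependent ℝ v ∧ (∀ i, 0 < t i) ∧
              K = convexHull ℝ
                (⋃ i, ({o + v i, o - t i • v i} : Set (EuclideanSpace ℝ (Fin d))))) := by
  intro d hd K hK hKc o hoK ⟨p, hp, ho, hsym⟩
  have htop : affineSpan ℝ (Set.range p) = ⊤ := by
    rw [hp.affineSpan_eq_top_iff_card_eq_finrank_add_one, Fintype.card_fin, finrank_euclideanSpace,
      Fintype.card_fin]
  let b : AffineBasis (Fin (d + 1)) ℝ (EuclideanSpace ℝ (Fin d)) := ⟨p, hp, htop⟩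
  have hb : ∀ i, b i = p i := fun i => rfl
  have ho' : ∑ i, b i = ((d : ℝ) + 1) • o := ho
  have hbody : Body (co b '' K) := body_image ho' hK hKc hoK hsym
  have hcard : Fintype.card (Fin (d + 1)) = d + 1 := Fintype.card_fin _
  have hN : 4 ≤ Fintype.card (Fin (d + 1)) := by rw [hcard]; omega
  refine ⟨?_, fun hno => ?_⟩
  · have h := base' hbody hN
    rw [hcard, Nat.add_sub_cancel] at h
    exact conc_transfer ho' h
  · have h := strict hbody hN
    rw [hcard, Nat.add_sub_cancel] at h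
    rcases h with h | h
    · exact absurd (conc_transfer ho' h) hno
    · exact cross_transfer ho' h

end Pool.Agent.Results.MP_5e7226_co.SimplexSymmetric
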